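import Mathlib
import Pool.Agent.Helper56.SKF.Defs

/-!
# Openness of the generic degree
-/

namespace Pool.Agent.Helper70.SKF

open Module Pool.Agent.Helper56.SKW Pool.Agent.Helper56.SKW.PBW Pool.Agent.Helper56.SKU
  Pool.Agent.Helper56.SKR

universe u v w

section prime

variable {A : Type*} [Ring A] {G : Type*} [Field G] {V : Type*} [AddCommGroup V] [Module G V]
  [FiniteDimensional G V]

omit [FiniteDimensional G V] in
theorem op_prime {ρ : A →+* Module.End G V} (hρ : ∀ g, g ∈ Submodule.span G (Set.range ρ))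
    (x y : Module.End G V) (hx : x ≠ 0) (hy : y ≠ 0) : ∃ u, x * ρ u * y ≠ 0 := by
  by_contra hall
  push Not at hall
  have h1 : ∀ g : Module.End G V, x * g * y = 0 := by
    intro g
    have h2 := hρ g
    induction h2 using Submodule.span_induction with
    | mem a ha =>
      obtain ⟨a, rfl⟩ := ha
      exact hall a
    | zero => rw [mul_zero, zero_mul]
    | add a b _ _ ha hb => rw [mul_add, add_mul, ha, hb, add_zero]
    | smul c a _ ha => rw [mul_smul_comm, smul_mul_assoc, ha, smul_zero]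
  obtain ⟨v, hv⟩ : ∃ v, x v ≠ 0 := by
    by_contra h3
    push Not at h3
    exact hx (LinearMap.ext h3)
  obtain ⟨w, hw⟩ : ∃ w, y w ≠ 0 := by
    by_contra h3
    push Not at h3
    exact hy (LinearMap.ext h3)
  obtain ⟨f, hf⟩ := LinearMap.exists_leftInverse_of_injective
    (LinearMap.toSpanSingleton G V (y w)) (LinearMap.ker_toSpanSingleton G hw)
  have h4 := LinearMap.congr_fun hf 1
  simp only [LinearMap.comp_apply, LinearMap.toSpanSingleton_apply, one_smul,
    LinearMap.id_apply] at h4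
  have h5 := LinearMap.congr_fun (h1 ((LinearMap.toSpanSingleton G V v).comp f)) w
  simp only [Module.End.mul_apply, LinearMap.comp_apply, h4, LinearMap.toSpanSingleton_apply,
    one_smul, LinearMap.zero_apply] at h5
  exact hv h5

omit [FiniteDimensional G V] in
/-- A right ideal all of whose long products vanish is killed by all irreducibles. -/
theorem op_kill {ρ : A →+* Module.End G V} (hρ : ∀ g, g ∈ Submodule.span G (Set.range ρ))
    (C : Set A) (hC : ∀ c ∈ C, ∀ u, c * u ∈ C) (N : ℕ)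
    (hN : ∀ l : List A, l.length = N → (∀ x ∈ l, x ∈ C) → l.prod = 0) (c : A) (hc : c ∈ C) :
    ρ c = 0 := by
  by_contra hne
  have hlist : ∀ n : ℕ, ∃ l : List A, l.length = n ∧ (∀ x ∈ l, x ∈ C) ∧
      ρ (l.prod * c) ≠ 0 := by
    intro n
    induction n with
    | zero => exact ⟨[], rfl, by simp, by rw [List.prod_nil, one_mul]; exact hne⟩
    | succ n ih =>
      obtain ⟨l, hl, hlC, hl0⟩ := ih
      obtain ⟨u, hu⟩ := op_prime hρ (ρ c) (ρ (l.prod * c)) hne hl0
      refine ⟨(c * u) :: l, by simp [hl], ?_, ?_⟩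
      · intro x hx
        rcases List.mem_cons.1 hx with rfl | hx
        · exact hC c hc u
        · exact hlC x hx
      · rw [List.prod_cons, mul_assoc, map_mul, map_mul]
        exact hu
  obtain ⟨l, hl, hlC, hl0⟩ := hlist N
  apply hl0
  rw [hN l hl hlC, zero_mul, map_zero]

/-- A non-vanishing Capelli value. -/
theorem op_cap {ρ : A →+* Module.End G V} (hρ : ∀ g, g ∈ Submodule.span G (Set.range ρ))
    (n : ℕ) (hn0 : 0 < n) (hn : n ≤ finrank G V * finrank G V) :
    ∃ a y z : Fin n → A, ρ (cap a y z) ≠ 0 := by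
  classical
  by_contra hzero
  push Not at hzero
  obtain ⟨a, y, z, hne⟩ := cap_ne_zero G (N := finrank G V) hn hn0
  apply hne
  let e := LinearMap.toMatrixAlgEquiv (Module.finBasis G V)
  have h1 : ∀ a y z : Fin n → Module.End G V, cap a y z = 0 := by
    refine cap_ext (F := G) (S := Set.range ρ) hρ ?_
    intro a y z ha hy hz
    choose a' ha' using ha
    choose y' hy' using hy
    choose z' hz' using hz
    have h2 := hzero a' y' z'
    rw [cap_map] at h2
    simp only [ha', hy', hz'] at h2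
    exact h2
  have h2 := congrArg e (h1 (fun i => e.symm (a i)) (fun i => e.symm (y i))
    (fun i => e.symm (z i)))
  rw [map_zero] at h2
  let e' : Module.End G V →+* Matrix (Fin (finrank G V)) (Fin (finrank G V)) G :=
    e.toRingEquiv.toRingHom
  have h3 := cap_map e' (fun i => e.symm (a i)) (fun i => e.symm (y i))
    (fun i => e.symm (z i))
  have h4 : ∀ x, e' (e.symm x) = x := fun x => e.apply_symm_apply x
  simp only [h4] at h3
  rw [← h3]
  exact h2

end prime

section clear

variable {R : Type u} [CommRing R] [IsDomain R] {A : Type v} [Ring A] [Algebra R A]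
  {ι' : Type*} [Fintype ι']

/-- Clearing denominators: the two sided ideal generated by an element which acts non-trivially
contains an element acting as a non-zero element of `R`. -/
theorem op_clear (wd : ι' → A) (hw : ∀ a, a ∈ Submodule.span R (Set.range wd))
    {F : Type*} [Field F] [IsAlgClosed F] (φ : R →+* F) (hφ : Function.Injective φ)
    {V : Type w} [AddCommGroup V] [Module F V] [FiniteDimensional F V]
    (ρ : A →+* Module.End F V) (hρ : Irr ρ) (hρφ : ∀ (r : R) a, ρ (r • a) = φ r • ρ a)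
    (c : A) (hc : ρ c ≠ 0) :
    ∃ (r : R) (e : A), r ≠ 0 ∧ e ∈ TwoSidedIdeal.span {c} ∧ ρ (r • (1 : A) - e) = 0 := by
  classical
  let K := FractionRing R
  let j : K →+* F := IsFractionRing.lift hφ
  have hj : ∀ r, j (algebraMap R K r) = φ r := fun r => IsFractionRing.lift_algebraMap hφ r
  let _ : Algebra K F := j.toAlgebra
  let _ : Module K V := Module.compHom V j
  have hst1 : IsScalarTower K F V := ⟨fun a b c => by
    show (j a * b) • c = j a • (b • c)
    rw [mul_smul]⟩
  have hcV : ∀ (c : K) (x : Module.End F V), c • x = j c • x := fun c x => rfl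
  let S := kspan K ρ
  let ρS : S →+* Module.End F V := S.val.toRingHom
  let T0 : A →+* S := kcor K ρ
  have hT0 : ∀ (r : R) a, T0 (r • a) = algebraMap R K r • T0 a := by
    intro r a
    apply Subtype.ext
    show ρ (r • a) = algebraMap R K r • ρ a
    rw [hρφ, hcV, hj]
  have hirr : Irr ρS := ⟨hρ.1, fun W hW => hρ.2 W fun a v hv => hW (T0 a) v hv⟩
  have hspan : (⊤ : Submodule K S) ≤ Submodule.span K (Set.range fun i => T0 (wd i)) := by
    intro x _
    refine (Submodule.span_le.2 ?_) (kcor_span (K := K) ρ x)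
    rintro _ ⟨a, rfl⟩
    have h1 := hw a
    show T0 a ∈ Submodule.span K (Set.range fun i => T0 (wd i))
    induction h1 using Submodule.span_induction with
    | mem a ha =>
      obtain ⟨i, rfl⟩ := ha
      exact Submodule.subset_span ⟨i, rfl⟩
    | zero => rw [map_zero]; exact Submodule.zero_mem _
    | add a b _ _ ha hb => rw [map_add]; exact Submodule.add_mem _ ha hb
    | smul c a _ ha => rw [hT0]; exact Submodule.smul_mem _ _ ha
  have hfin : FiniteDimensional K S := by
    refine ⟨(Submodule.fg_def.2 ⟨Set.range fun i => T0 (wd i), Set.finite_range _, ?_⟩)⟩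
    exact le_antisymm le_top hspan
  have hsimple : IsSimpleRing S := simple_of_irr K S ρS hirr Subtype.val_injective
  -- the ideal of all elements that come from the ideal generated by `c` after clearing denominators
  let P : S → Prop := fun x => ∃ (r : R) (e : A), r ≠ 0 ∧ e ∈ TwoSidedIdeal.span {c} ∧
    algebraMap R K r • x = T0 e
  have hinjK : ∀ r : R, r ≠ 0 → algebraMap R K r ≠ 0 := by
    intro r hr
    rw [Ne, map_eq_zero_iff _ (IsFractionRing.injective R K)]
    exact hr
  have hsmI : ∀ (r : R) (e : A), e ∈ TwoSidedIdeal.span {c} → r • e ∈ TwoSidedIdeal.span {c} := by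
    intro r e he
    have h1 : r • e = (r • (1 : A)) * e := by rw [smul_mul_assoc, one_mul]
    rw [h1]
    exact TwoSidedIdeal.mul_mem_left _ _ _ he
  have hP0 : P 0 := ⟨1, 0, one_ne_zero, TwoSidedIdeal.zero_mem _, by rw [smul_zero, map_zero]⟩
  have hPadd : ∀ {x y}, P x → P y → P (x + y) := by
    rintro x y ⟨r, e, hr, he, hx⟩ ⟨s, f, hs, hf, hy⟩
    refine ⟨r * s, s • e + r • f, mul_ne_zero hr hs,
      TwoSidedIdeal.add_mem _ (hsmI _ _ he) (hsmI _ _ hf), ?_⟩
    rw [map_add, hT0, hT0, ← hx, ← hy, smul_add, smul_smul, smul_smul, map_mul]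
    congr 1
    rw [mul_comm]
  have hPneg : ∀ {x}, P x → P (-x) := by
    rintro x ⟨r, e, hr, he, hx⟩
    exact ⟨r, -e, hr, TwoSidedIdeal.neg_mem _ he, by rw [smul_neg, hx, map_neg]⟩
  -- every element of `S` comes from `A` after clearing denominators
  have hclear : ∀ x : S, ∃ (r : R) (a : A), r ≠ 0 ∧ algebraMap R K r • x = T0 a := by
    intro x
    have h1 := kcor_span (K := K) ρ x
    induction h1 using Submodule.span_induction with
    | mem x hx =>
      obtain ⟨a, rfl⟩ := hx
      exact ⟨1, a, one_ne_zero, by rw [map_one, one_smul]⟩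
    | zero => exact ⟨1, 0, one_ne_zero, by rw [smul_zero, map_zero]⟩
    | add x y _ _ hx hy =>
      obtain ⟨r, e, hr, hx⟩ := hx
      obtain ⟨s, f, hs, hy⟩ := hy
      refine ⟨r * s, s • e + r • f, mul_ne_zero hr hs, ?_⟩
      rw [map_add, hT0, hT0, ← hx, ← hy, smul_add, smul_smul, smul_smul, map_mul]
      congr 1
      rw [mul_comm]
    | smul t x _ hx =>
      obtain ⟨r, e, hr, hx⟩ := hx
      obtain ⟨s, q, hq, rfl⟩ := IsFractionRing.div_surjective (A := R) t
      have hq0 : q ≠ 0 := nonZeroDivisors.ne_zero hq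
      refine ⟨q * r, s • e, mul_ne_zero hq0 hr, ?_⟩
      rw [hT0, ← hx, smul_smul, smul_smul, map_mul]
      congr 1
      rw [mul_comm (algebraMap R K q), mul_assoc, mul_div_cancel₀ _ (hinjK q hq0), mul_comm]
  have hPleft : ∀ {x y}, P y → P (x * y) := by
    rintro x y ⟨r, e, hr, he, hy⟩
    obtain ⟨s, a, hs, hx⟩ := hclear x
    refine ⟨s * r, a * e, mul_ne_zero hs hr, TwoSidedIdeal.mul_mem_left _ _ _ he, ?_⟩
    rw [map_mul, map_mul, ← hx, ← hy, smul_mul_smul_comm]
  have hPright : ∀ {x y}, P x → P (x * y) := by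
    rintro x y ⟨r, e, hr, he, hx⟩
    obtain ⟨s, a, hs, hy⟩ := hclear y
    refine ⟨r * s, e * a, mul_ne_zero hr hs, TwoSidedIdeal.mul_mem_right _ _ _ he, ?_⟩
    rw [map_mul, map_mul, ← hx, ← hy, smul_mul_smul_comm]
  let I : TwoSidedIdeal S := TwoSidedIdeal.mk' {x | P x} hP0 hPadd hPneg hPleft hPright
  have hI : ∀ x, x ∈ I ↔ P x := fun x => TwoSidedIdeal.mem_mk' _ _ _ _ _ _ x
  have hcI : T0 c ∈ I := by
    rw [hI]
    exact ⟨1, c, one_ne_zero, TwoSidedIdeal.subset_span rfl, by rw [map_one, one_smul]⟩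
  have htop : I = ⊤ := by
    rcases eq_bot_or_eq_top I with h | h
    · exfalso
      rw [h, TwoSidedIdeal.mem_bot] at hcI
      exact hc (congrArg Subtype.val hcI)
    · exact h
  have h1 : (1 : S) ∈ I := by rw [htop]; trivial
  rw [hI] at h1
  obtain ⟨r, e, hr, he, h1⟩ := h1
  refine ⟨r, e, hr, he, ?_⟩
  have h2 : ρ (r • (1 : A)) = ρ e := by
    have h3 : algebraMap R K r • (1 : Module.End F V) = ρ e := congrArg Subtype.val h1
    rw [hcV, hj] at h3
    rw [hρφ, map_one]
    exact h3
  rw [map_sub, h2, sub_self]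

end clear

/-- Openness of the generic degree. -/
theorem opn {R : Type u} [CommRing R] [IsDomain R] {A : Type u} [Ring A] [Algebra R A]
    {ι' : Type*} [Fintype ι'] (wd : ι' → A) (hw : ∀ a, a ∈ Submodule.span R (Set.range wd))
    (π : A →+* A) (hπ : ∀ (r : R) a, π (r • a) = r • π a) (hππ : ∀ a, π (π a) = a)
    {F : Type u} [Field F] [IsAlgClosed F] (φ : R →+* F) (hφ : Function.Injective φ)
    (huniq : ∀ (V V' : Type u) [AddCommGroup V] [Module F V] [FiniteDimensional F V]
      [AddCommGroup V'] [Module F V'] [FiniteDimensional F V'] (ρ : A →+* Module.End F V)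
      (ρ' : A →+* Module.End F V'), Irr ρ → Irr ρ' → (∀ (r : R) a, ρ (r • a) = φ r • ρ a) →
      (∀ (r : R) a, ρ' (r • a) = φ r • ρ' a) → ∀ a, ρ a = 0 → ρ (π a) = 0 → ρ' a = 0)
    {M : Type u} [AddCommGroup M] [Module F M] [FiniteDimensional F M] [Nontrivial M]
    (τ : A →+* Module.End F M) (hτ : ∀ (r : R) a, τ (r • a) = φ r • τ a)
    (hτi : Function.Injective τ) :
    ∃ (d : ℕ) (f₀ : R), f₀ ≠ 0 ∧ ∀ (G V : Type u) [Field G] [IsAlgClosed G] [AddCommGroup V]
      [Module G V] [FiniteDimensional G V] (ρ : A →+* Module.End G V) (ψ : R →+* G), Irr ρ →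
      (∀ (r : R) a, ρ (r • a) = ψ r • ρ a) → finrank G V ≤ d ∧ (ψ f₀ ≠ 0 → finrank G V = d) := by
  classical
  let E : Set (A × F) := Set.range fun r : R => (r • (1 : A), φ r)
  have hsat : ∀ {V : Type u} [AddCommGroup V] [Module F V] (ρ : A →+* Module.End F V),
      Sat E ρ → ∀ (r : R) a, ρ (r • a) = φ r • ρ a := by
    intro V _ _ ρ hs r a
    have h1 := hs _ ⟨r, rfl⟩
    have h2 : r • a = (r • (1 : A)) * a := by rw [smul_mul_assoc, one_mul]
    rw [h2, map_mul, h1, smul_mul_assoc, one_mul]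
  have hsat' : ∀ {V : Type u} [AddCommGroup V] [Module F V] (ρ : A →+* Module.End F V),
      (∀ (r : R) a, ρ (r • a) = φ r • ρ a) → Sat E ρ := by
    rintro V _ _ ρ hs _ ⟨r, rfl⟩
    show ρ (r • (1 : A)) = φ r • 1
    rw [hs, map_one]
  -- irreducible representations of the largest dimension
  let Q : ℕ → Prop := fun n => ∃ (V : Type u) (_ : AddCommGroup V) (_ : Module F V)
    (_ : FiniteDimensional F V) (ρ : A →+* Module.End F V), Irr ρ ∧
      (∀ (r : R) a, ρ (r • a) = φ r • ρ a) ∧ finrank F V = n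
  have hQ : ∃ n, Q n := by
    obtain ⟨W, hW, hW0, hirr⟩ := exists_irr_sub τ
    exact ⟨_, W, inferInstance, inferInstance, inferInstance, _, hirr,
      hsat _ ((hsat' τ hτ).sub W hW), rfl⟩
  have hbd : ∀ n, Q n → n ≤ Fintype.card ι' := by
    rintro n ⟨V, _, _, _, ρ, hρ, hρφ, rfl⟩
    have h1 : (⊤ : Submodule F (Module.End F V)) ≤
        Submodule.span F (Set.range fun i => ρ (wd i)) := by
      intro x _
      refine (Submodule.span_le.2 ?_) (irr_span hρ x)
      rintro _ ⟨a, rfl⟩
      have h1 := hw a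
      show ρ a ∈ Submodule.span F (Set.range fun i => ρ (wd i))
      induction h1 using Submodule.span_induction with
      | mem a ha =>
        obtain ⟨i, rfl⟩ := ha
        exact Submodule.subset_span ⟨i, rfl⟩
      | zero => rw [map_zero]; exact Submodule.zero_mem _
      | add a b _ _ ha hb => rw [map_add]; exact Submodule.add_mem _ ha hb
      | smul c a _ ha => rw [hρφ]; exact Submodule.smul_mem _ _ ha
    have h2 := Submodule.finrank_mono h1
    rw [finrank_top, Module.finrank_linearMap] at h2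
    have h3 := h2.trans (finrank_range_le_card _)
    exact (Nat.le_mul_self _).trans h3
  obtain ⟨d, hQd, hmax⟩ : ∃ d, Q d ∧ ∀ n, Q n → n ≤ d := by
    refine ⟨Nat.findGreatest Q (Fintype.card ι'), ?_, ?_⟩
    · obtain ⟨n, hn⟩ := hQ
      exact Nat.findGreatest_spec (hbd n hn) hn
    · intro n hn
      exact Nat.le_findGreatest (hbd n hn) hn
  obtain ⟨V₀, _, _, _, ρ₀, hρ₀, hρ₀φ, hd⟩ := hQd
  have hV₀ := hρ₀.1
  have hdpos : 0 < d := by rw [← hd]; exact finrank_pos
  -- all irreducible representations have dimension at most `d`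
  have hle : ∀ (G V : Type u) [Field G] [IsAlgClosed G] [AddCommGroup V]
      [Module G V] [FiniteDimensional G V] (ρ : A →+* Module.End G V), Irr ρ →
      finrank G V ≤ d := by
    intro G V _ _ _ _ _ ρ hρ
    refine transfer E d (finrank F M) ?_ (J := Unit) (fun _ => M)
      (fun _ => τ) (fun _ => hsat' τ hτ) (fun _ => le_rfl) ρ (irr_span hρ) ?_
    · intro V _ _ _ ρ hρ hs
      exact hmax _ ⟨V, inferInstance, inferInstance, inferInstance, ρ, hρ, hsat ρ hs, rfl⟩
    · intro a ha
      have h3 : a = 0 := hτi ((ha ()).trans (map_zero _).symm)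
      rw [h3, map_zero]
  -- the ideal `n`
  let C : Set A := {a | ρ₀ a = 0 ∧ ρ₀ (π a) = 0}
  have hCr : ∀ c ∈ C, ∀ u, c * u ∈ C := by
    rintro c ⟨h1, h2⟩ u
    exact ⟨by rw [map_mul, h1, zero_mul], by rw [map_mul, map_mul, h2, zero_mul]⟩
  have hprod : ∀ l : List A, l.length = finrank F M → (∀ x ∈ l, x ∈ C) → l.prod = 0 := by
    intro l hl hlC
    apply hτi
    rw [map_zero]
    refine prod_kill E C ?_ l hlC M τ (hsat' τ hτ) hl.ge
    intro V _ _ _ ρ hρ hs c hc
    exact huniq V₀ V ρ₀ ρ hρ₀ hρ hρ₀φ (hsat ρ hs) c hc.1 hc.2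
  -- the Capelli value
  obtain ⟨m, rfl⟩ : ∃ m, d = m + 1 := ⟨d - 1, by omega⟩
  obtain ⟨a, y, z, hne⟩ := op_cap (irr_span hρ₀) (m * m + 1) (Nat.succ_pos _) (by
    rw [hd]; nlinarith)
  obtain ⟨r, e, hr, he, hre⟩ := op_clear wd hw φ hφ ρ₀ hρ₀ hρ₀φ _ hne
  refine ⟨m + 1, r, hr, ?_⟩
  intro G V _ _ _ _ _ ρ ψ hρ hρψ
  refine ⟨hle G V ρ hρ, fun hψ => ?_⟩
  by_contra hlt
  have hlt' : finrank G V ≤ m := by
    have := hle G V ρ hρ
    omega
  apply hψ
  have hcap : ∀ a y z : Fin (m * m + 1) → A, ρ (cap a y z) = 0 := by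
    intro a y z
    rw [cap_map]
    refine cap_eq_zero (K := G) ?_ _ _ _
    rw [Module.finrank_linearMap]
    nlinarith
  have he1 : ρ e = 0 := by
    have h1 : TwoSidedIdeal.span {cap a y z} ≤ TwoSidedIdeal.ker ρ := by
      rw [TwoSidedIdeal.span_le]
      rintro _ rfl
      show cap a y z ∈ TwoSidedIdeal.ker ρ
      rw [TwoSidedIdeal.mem_ker]
      exact hcap a y z
    have h2 := h1 he
    rwa [TwoSidedIdeal.mem_ker] at h2
  have he2 : ρ (π e) = 0 := by
    have h1 : TwoSidedIdeal.span {cap a y z} ≤ TwoSidedIdeal.ker (ρ.comp π) := by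
      rw [TwoSidedIdeal.span_le]
      rintro _ rfl
      show cap a y z ∈ TwoSidedIdeal.ker (ρ.comp π)
      rw [TwoSidedIdeal.mem_ker, RingHom.comp_apply, cap_map]
      exact hcap _ _ _
    have h2 := h1 he
    rwa [TwoSidedIdeal.mem_ker, RingHom.comp_apply] at h2
  set j := r • (1 : A) - e with hj
  have hjC : j * π j ∈ C := by
    refine ⟨by rw [map_mul, hre, zero_mul], ?_⟩
    rw [map_mul, hππ, map_mul, hre, mul_zero]
  have h0 := op_kill (irr_span hρ) C hCr _ hprod _ hjC
  have h1 : ρ j = ψ r • 1 := by rw [hj, map_sub, he1, sub_zero, hρψ, map_one]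
  have h2 : ρ (π j) = ψ r • 1 := by
    rw [hj, map_sub, map_sub, he2, sub_zero, hπ, map_one, hρψ, map_one]
  rw [map_mul, h1, h2, smul_mul_smul_comm, one_mul] at h0
  have hV := hρ.1
  obtain ⟨v, hv⟩ := exists_ne (0 : V)
  have h3 := LinearMap.congr_fun h0 v
  rw [LinearMap.smul_apply, LinearMap.zero_apply] at h3
  have h4 : ψ r * ψ r = 0 := (smul_eq_zero.1 h3).resolve_right hv
  exact mul_self_eq_zero.1 h4

end Pool.Agent.Helper70.SKF
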